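import Pool.Agent.Helper50.AY.StB

set_option autoImplicit false

namespace Pool.Agent.Helper24.AY

open Pool.Agent.Helper50.AY Pool.Agent.Helper43.GD
open Matrix (SpecialLinearGroup)

section SL

variable {K : Type} [Field K]

/-- upper transvection -/
def EE (c : K) : SpecialLinearGroup (Fin 2) K := ⟨!![1, c; 0, 1], by simp [Matrix.det_fin_two]⟩

/-- lower transvection -/
def FF (c : K) : SpecialLinearGroup (Fin 2) K := ⟨!![1, 0; c, 1], by simp [Matrix.det_fin_two]⟩

/-- the Weyl element -/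
def WW (K : Type) [Field K] : SpecialLinearGroup (Fin 2) K :=
  ⟨!![0, 1; -1, 0], by rw [Matrix.det_fin_two]; simp⟩

private lemma EE_add (a b : K) : EE (a + b) = EE a * EE b := by
  apply Subtype.ext
  ext i j
  fin_cases i <;> fin_cases j <;> simp [EE, Matrix.mul_apply, Fin.sum_univ_two, add_comm]

private lemma EE_zero : EE (0 : K) = 1 := by
  apply Subtype.ext
  ext i j
  fin_cases i <;> fin_cases j <;> simp [EE]

private lemma EE_neg (a : K) : EE (-a) = (EE a)⁻¹ := by
  rw [eq_inv_iff_mul_eq_one, ← EE_add, neg_add_cancel, EE_zero]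

private lemma br1 : EE (1 : K) * FF (-1) * EE 1 = WW K := by
  apply Subtype.ext
  ext i j
  fin_cases i <;> fin_cases j <;> simp [EE, FF, WW, Matrix.mul_apply, Fin.sum_univ_two]

private lemma br2 : FF (-1 : K) * EE 1 * FF (-1) = WW K := by
  apply Subtype.ext
  ext i j
  fin_cases i <;> fin_cases j <;> simp [EE, FF, WW, Matrix.mul_apply, Fin.sum_univ_two]

private lemma WW2 (g : SpecialLinearGroup (Fin 2) K) : (WW K * WW K) * g = g * (WW K * WW K) := by
  apply Subtype.ext
  ext i j
  fin_cases i <;> fin_cases j <;> simp [WW, Matrix.mul_apply, Fin.sum_univ_two]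

/-- generation of `SL(2,K)` -/
private lemma gen (P : Subgroup (SpecialLinearGroup (Fin 2) K)) (hE : ∀ c : K, EE c ∈ P)
    (hW : WW K ∈ P) : P = ⊤ := by
  rw [Subgroup.eq_top_iff']
  have key : ∀ g : SpecialLinearGroup (Fin 2) K, g.1 1 0 ≠ 0 → g ∈ P := by
    intro g hg
    have hdet := g.2
    rw [Matrix.det_fin_two] at hdet
    have hF : WW K * EE (-(g.1 1 0)) * (WW K)⁻¹ ∈ P :=
      P.mul_mem (P.mul_mem hW (hE _)) (P.inv_mem hW)
    have hF2 : WW K * EE (-(g.1 1 0)) * (WW K)⁻¹ = FF (g.1 1 0) := by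
      rw [mul_inv_eq_iff_eq_mul]
      apply Subtype.ext
      ext i j
      fin_cases i <;> fin_cases j <;>
        simp [EE, FF, WW, Matrix.mul_apply, Fin.sum_univ_two]
    have : g = EE ((g.1 0 0 - 1) * (g.1 1 0)⁻¹) * (WW K * EE (-(g.1 1 0)) * (WW K)⁻¹) *
        EE ((g.1 1 1 - 1) * (g.1 1 0)⁻¹) := by
      rw [hF2]
      apply Subtype.ext
      ext i j
      fin_cases i <;> fin_cases j <;>
        simp [EE, FF, Matrix.mul_apply, Fin.sum_univ_two]
      · field_simp
        ring
      · field_simp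
        linear_combination -hdet
      · field_simp
        ring
    rw [this]
    exact P.mul_mem (P.mul_mem (hE _) hF) (hE _)
  intro g
  by_cases hg : g.1 1 0 = 0
  · have h1 : WW K * g ∈ P := by
      apply key
      have hdet := g.2
      rw [Matrix.det_fin_two, hg, mul_zero, sub_zero] at hdet
      have : (WW K * g).1 1 0 = -g.1 0 0 := by
        simp [WW, Matrix.mul_apply, Fin.sum_univ_two]
      rw [this]
      exact neg_ne_zero.2 (left_ne_zero_of_mul_eq_one hdet)
    exact (P.mul_mem_cancel_left hW).1 h1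
  · exact key g hg

private def tf (y z : K) (h : y * z = 1) (g : SpecialLinearGroup (Fin 2) K) :
    SpecialLinearGroup (Fin 2) K :=
  ⟨!![g.1 0 0, y * g.1 0 1; z * g.1 1 0, g.1 1 1], by
    have hdet := g.2
    rw [Matrix.det_fin_two] at hdet
    rw [Matrix.det_fin_two]
    simp only [Matrix.of_apply, Matrix.cons_val', Matrix.cons_val_zero, Matrix.cons_val_one,
      Matrix.cons_val_fin_one]
    linear_combination hdet - (g.1 0 1 * g.1 1 0) * h⟩

private lemma tf_tf (y z : K) (h : y * z = 1) (h' : z * y = 1)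
    (g : SpecialLinearGroup (Fin 2) K) : tf y z h (tf z y h' g) = g := by
  apply Subtype.ext
  ext i j
  fin_cases i <;> fin_cases j <;> simp [tf, ← mul_assoc, h, h']

private lemma tf_mul (y z : K) (h : y * z = 1) (g g' : SpecialLinearGroup (Fin 2) K) :
    tf y z h (g * g') = tf y z h g * tf y z h g' := by
  apply Subtype.ext
  ext i j
  fin_cases i <;> fin_cases j <;> simp [tf, Matrix.mul_apply, Fin.sum_univ_two]
  · linear_combination (-(g.1 0 1 * g'.1 1 0)) * h
  · ring
  · ring
  · linear_combination (-(g.1 1 0 * g'.1 0 1)) * h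

/-- the diagonal automorphism -/
private def tau (x : Kˣ) : MulAut (SpecialLinearGroup (Fin 2) K) where
  toFun := tf ((x⁻¹ : Kˣ) : K) (x : K) (by simp)
  invFun := tf (x : K) ((x⁻¹ : Kˣ) : K) (by simp)
  left_inv g := tf_tf _ _ _ _ g
  right_inv g := tf_tf _ _ _ _ g
  map_mul' g g' := tf_mul _ _ _ g g'

private lemma tau_apply (x : Kˣ) (g : SpecialLinearGroup (Fin 2) K) :
    tau x g = tf ((x⁻¹ : Kˣ) : K) (x : K) (by simp) g := rfl

private lemma tau_inv_apply (x : Kˣ) (g : SpecialLinearGroup (Fin 2) K) :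
    (tau x)⁻¹ g = tf (x : K) ((x⁻¹ : Kˣ) : K) (by simp) g := rfl

private lemma tau_mul (x y : Kˣ) : tau (x * y) = tau x * tau y := by
  apply MulEquiv.ext
  intro g
  rw [MulAut.mul_apply, tau_apply, tau_apply, tau_apply]
  apply Subtype.ext
  ext i j
  fin_cases i <;> fin_cases j <;> simp [tf]
  · ring
  · ring

private lemma tau_one : tau (1 : Kˣ) = 1 := by
  apply MulEquiv.ext
  intro g
  rw [MulAut.one_apply, tau_apply]
  apply Subtype.ext
  ext i j
  fin_cases i <;> fin_cases j <;> simp [tf]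

private lemma tau_pow (x : Kˣ) (n : ℕ) : tau (x ^ n) = tau x ^ n := by
  induction n with
  | zero => rw [pow_zero, pow_zero, tau_one]
  | succ n ih => rw [pow_succ, pow_succ, tau_mul, ih]

private lemma aut_conj (φ : MulAut (SpecialLinearGroup (Fin 2) K))
    (g : SpecialLinearGroup (Fin 2) K) : φ * MulAut.conj g * φ⁻¹ = MulAut.conj (φ g) := by
  apply MulEquiv.ext
  intro h
  rw [MulAut.mul_apply, MulAut.mul_apply, MulAut.conj_apply, MulAut.conj_apply, map_mul, map_mul,
    map_inv, MulAut.apply_inv_self]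

private lemma tau_inv_E (x : Kˣ) (y : K) : (tau x)⁻¹ (EE y) = EE ((x : K) * y) := by
  rw [tau_inv_apply]
  apply Subtype.ext
  ext i j
  fin_cases i <;> fin_cases j <;> simp [tf, EE]

private lemma cj_eq (x : Kˣ) (n : ℕ) :
    cj (MulAut.conj (EE (1 : K))) (tau x) (n : ℤ) = MulAut.conj (EE ((x : K) ^ n)) := by
  unfold cj
  rw [zpow_neg, zpow_natCast]
  induction n with
  | zero => simp
  | succ n ih =>
    have e1 : ((tau x) ^ (n + 1))⁻¹ * MulAut.conj (EE (1 : K)) * (tau x) ^ (n + 1) =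
        (tau x)⁻¹ * (((tau x) ^ n)⁻¹ * MulAut.conj (EE (1 : K)) * (tau x) ^ n) * (tau x)⁻¹⁻¹ := by
      rw [pow_succ]; group
    rw [e1, ih, aut_conj, tau_inv_E, pow_succ']

private lemma W_tau (x : Kˣ) :
    (MulAut.conj (WW K))⁻¹ * tau x * MulAut.conj (WW K) = (tau x)⁻¹ := by
  rw [mul_assoc, inv_mul_eq_iff_eq_mul]
  apply MulEquiv.ext
  intro g
  rw [MulAut.mul_apply, MulAut.mul_apply, MulAut.conj_apply, MulAut.conj_apply, map_mul, map_mul,
    map_inv, tau_inv_apply, tau_apply, tau_apply, mul_inv_eq_iff_eq_mul, mul_assoc, mul_assoc]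
  have e1 : (WW K)⁻¹ * tf ((x⁻¹ : Kˣ) : K) (x : K) (by simp) (WW K) =
      ⟨!![(x : K), 0; 0, ((x⁻¹ : Kˣ) : K)], by rw [Matrix.det_fin_two]; simp⟩ := by
    rw [inv_mul_eq_iff_eq_mul]
    apply Subtype.ext
    ext i j
    fin_cases i <;> fin_cases j <;> simp [tf, WW, Matrix.mul_apply, Fin.sum_univ_two]
  rw [e1]
  apply Subtype.ext
  ext i j
  fin_cases i <;> fin_cases j <;>
    simp [tf, WW, Matrix.mul_apply, Fin.sum_univ_two] <;> field_simp

/-- field automorphisms -/
private def theta (s : K ≃+* K) : MulAut (SpecialLinearGroup (Fin 2) K) where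
  toFun := SpecialLinearGroup.map (s : K →+* K)
  invFun := SpecialLinearGroup.map (s.symm : K →+* K)
  left_inv g := by
    apply Subtype.ext
    ext i j
    simp
  right_inv g := by
    apply Subtype.ext
    ext i j
    simp
  map_mul' g g' := map_mul _ g g'

private lemma theta_apply (s : K ≃+* K) (g : SpecialLinearGroup (Fin 2) K) (i j : Fin 2) :
    (theta s g).1 i j = s (g.1 i j) := rfl

private lemma theta_pow (s : K ≃+* K) (n : ℕ) (g : SpecialLinearGroup (Fin 2) K) (i j : Fin 2) :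
    ((theta s ^ n) g).1 i j = s^[n] (g.1 i j) := by
  induction n with
  | zero => rfl
  | succ n ih =>
    rw [pow_succ', MulAut.mul_apply, theta_apply, ih, Function.iterate_succ_apply']

private lemma theta_tau (s : K ≃+* K) (x : Kˣ) (q : ℕ) (h : s (x : K) = (x : K) ^ q) :
    theta s * tau x * (theta s)⁻¹ = tau x ^ q := by
  rw [mul_inv_eq_iff_eq_mul, ← tau_pow]
  apply MulEquiv.ext
  intro g
  rw [MulAut.mul_apply, MulAut.mul_apply, tau_apply, tau_apply]
  apply Subtype.ext
  ext i j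
  rw [theta_apply]
  fin_cases i <;> fin_cases j <;> simp [tf, theta_apply, h]

private lemma theta_fix (s : K ≃+* K) (g : SpecialLinearGroup (Fin 2) K)
    (h : theta s g = g) (k : ℤ) : Commute (theta s ^ k) (MulAut.conj g) := by
  apply Commute.zpow_left
  have h1 := aut_conj (theta s) g
  rw [h, mul_inv_eq_iff_eq_mul] at h1
  exact h1

end SL

private lemma w3 {T : Type} [Group T] (A B P : T) (hA : P * A = A * P) (hB : P * B = B * P) :
    A * P * (B * P) * (A * P) = A * B * A * P ^ 3 := by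
  calc A * P * (B * P) * (A * P) = A * (P * B) * (P * A) * P := by group
    _ = A * (B * P) * (A * P) * P := by rw [hB, hA]
    _ = A * B * (P * A) * P * P := by group
    _ = A * B * (A * P) * P * P := by rw [hA]
    _ = A * B * A * P ^ 3 := by simp only [pow_succ, pow_zero, one_mul, mul_assoc]

private lemma cube {T : Type} [Group T] (a b : T) (h : a * b * a = b * a * b) :
    (a * b) ^ 3 = (a * b * a) ^ 2 := by
  have e1 : (a * b) ^ 3 = (a * b * a) * (b * a * b) := by
    rw [pow_succ, pow_succ, pow_one]; group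
  rw [e1, ← h, sq]

/-- the relations and the generation in the target group -/
private lemma core {K : Type} [Field K] (p q : ℕ) (k : ℤ) (hk : (6 * k - 1).natAbs = p)
    (x : Kˣ) (s : K ≃+* K) (hsp : ∀ y, s^[p] y = y) (hsx : s (x : K) = (x : K) ^ q)
    (hq2 : (x : K) ^ (q ^ 2) = (x : K) + 1) (hgn : Gn (x : K)) :
    ∃ (T : Type) (_ : Group T) (a' b' t : T), Rel3q q k a' b' t ∧
      ∀ (G : Type) [Group G] (f : G →* T) (ga gb gt : G), f ga = a' → f gb = b' → f gt = t →
        Subgroup.closure {ga, gb, gt} = (⊤ : Subgroup G) →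
        ∃ Lc : Subgroup G, Lc.Normal ∧
          ∃ f' : Lc →* Matrix.ProjectiveSpecialLinearGroup (Fin 2) K,
            Function.Surjective f' := by
  obtain ⟨c, hc⟩ : ∃ c : SpecialLinearGroup (Fin 2) K →* MulAut (SpecialLinearGroup (Fin 2) K),
    c = MulAut.conj := ⟨_, rfl⟩
  obtain ⟨θ, hθ⟩ : ∃ θ : MulAut (SpecialLinearGroup (Fin 2) K), θ = theta s := ⟨_, rfl⟩
  obtain ⟨t, ht⟩ : ∃ t : MulAut (SpecialLinearGroup (Fin 2) K), t = tau x := ⟨_, rfl⟩
  have hθp : θ ^ p = 1 := by
    apply MulEquiv.ext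
    intro g
    apply Subtype.ext
    ext i j
    rw [hθ, theta_pow, hsp]
    rfl
  have hθz : θ ^ (6 * k - 1) = 1 := by
    rcases Int.natAbs_eq (6 * k - 1) with h | h
    · rw [h, hk, zpow_natCast, hθp]
    · rw [h, hk, zpow_neg, zpow_natCast, hθp, inv_one]
  obtain ⟨P, hP⟩ : ∃ P : MulAut (SpecialLinearGroup (Fin 2) K), P = θ ^ (-(2 * k)) := ⟨_, rfl⟩
  have hP3 : P ^ 3 = θ⁻¹ := by
    rw [hP, ← zpow_natCast, ← zpow_mul,
      show (-(2 * k)) * ((3 : ℕ) : ℤ) = -1 + -(6 * k - 1) by push_cast; ring, zpow_add,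
      zpow_neg θ (6 * k - 1), hθz, inv_one, mul_one, zpow_neg_one]
  have hPz : P ^ (6 * k - 1) = 1 := by
    rw [hP, ← zpow_mul, mul_comm, zpow_mul, hθz, one_zpow]
  obtain ⟨A, hA⟩ : ∃ A, A = c (EE 1) := ⟨_, rfl⟩
  obtain ⟨B, hB⟩ : ∃ B, B = c (FF (-1)) := ⟨_, rfl⟩
  obtain ⟨W, hW⟩ : ∃ W, W = c (WW K) := ⟨_, rfl⟩
  have fixE : theta s (EE 1) = EE 1 := by
    apply Subtype.ext
    ext i j
    rw [theta_apply]
    fin_cases i <;> fin_cases j <;> simp [EE]
  have fixF : theta s (FF (-1)) = FF (-1) := by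
    apply Subtype.ext
    ext i j
    rw [theta_apply]
    fin_cases i <;> fin_cases j <;> simp [FF]
  have fixW : theta s (WW K) = WW K := by
    apply Subtype.ext
    ext i j
    rw [theta_apply]
    fin_cases i <;> fin_cases j <;> simp [WW]
  have cA : P * A = A * P := by
    rw [hP, hA, hθ, hc]
    exact theta_fix s _ fixE _
  have cB : P * B = B * P := by
    rw [hP, hB, hθ, hc]
    exact theta_fix s _ fixF _
  have cW : P * W = W * P := by
    rw [hP, hW, hθ, hc]
    exact theta_fix s _ fixW _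
  have ABA : A * B * A = W := by
    rw [hA, hB, hW, ← map_mul, ← map_mul, br1]
  have BAB : B * A * B = W := by
    rw [hA, hB, hW, ← map_mul, ← map_mul, br2]
  have WW1 : W * W = 1 := by
    rw [hW, ← map_mul, hc]
    apply MulEquiv.ext
    intro g
    rw [MulAut.conj_apply, WW2, mul_inv_cancel_right]
    rfl
  have e1 : A * P * (B * P) * (A * P) = W * θ⁻¹ := by rw [w3 A B P cA cB, ABA, hP3]
  have e2 : B * P * (A * P) * (B * P) = W * θ⁻¹ := by rw [w3 B A P cB cA, BAB, hP3]
  have hbr : A * P * (B * P) * (A * P) = B * P * (A * P) * (B * P) := by rw [e1, e2]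
  have hκ : (A * P * (B * P)) ^ 3 = P ^ 6 := by
    rw [cube _ _ hbr, e1, ← hP3]
    have h1 : Commute W (P ^ 3) := (show Commute P W from cW).symm.pow_right 3
    rw [h1.mul_pow, sq W, WW1, one_mul, ← pow_mul]
  have ha0 : A * P * ((A * P * (B * P)) ^ 3) ^ (-k) = A := by
    rw [hκ, mul_assoc]
    have h1 : P * (P ^ 6) ^ (-k) = 1 := by
      rw [← zpow_natCast P 6, ← zpow_mul, ← zpow_one_add,
        show 1 + ((6 : ℕ) : ℤ) * -k = -(6 * k - 1) by push_cast; ring, zpow_neg, hPz,
        inv_one]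
    rw [h1, mul_one]
  have hcj : ∀ n : ℕ, cj A t (n : ℤ) = c (EE ((x : K) ^ n)) := by
    intro n
    rw [hA, ht, hc]
    exact cj_eq x n
  refine ⟨MulAut (SpecialLinearGroup (Fin 2) K), inferInstance, A * P, B * P, t, ⟨hbr, ?_, ?_⟩, ?_⟩
  · have h1 : W⁻¹ * t * W = t⁻¹ := by
      rw [hW, ht, hc]
      exact W_tau x
    have h2 : θ * t * θ⁻¹ = t ^ q := by
      rw [hθ, ht]
      exact theta_tau s x q hsx
    rw [e1]
    calc (W * θ⁻¹)⁻¹ * t * (W * θ⁻¹) = θ * (W⁻¹ * t * W) * θ⁻¹ := by group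
      _ = (θ * t * θ⁻¹)⁻¹ := by rw [h1]; group
      _ = (t ^ q)⁻¹ := by rw [h2]
  · rw [ha0, hcj (q ^ 2), hq2, add_comm, EE_add, map_mul]
    have h1 := hcj 1
    rw [Nat.cast_one, pow_one] at h1
    rw [h1, hA]
  · intro G _ f ga gb gt hga hgb hgt hcl
    have hPr : P ∈ f.range := by
      have h1 : P ^ 6 ∈ f.range := by
        rw [← hκ, ← hga, ← hgb]
        exact ⟨(ga * gb) ^ 3, by rw [map_pow, map_mul]⟩
      have h2 : P = (P ^ 6) ^ k := by
        have h3 : (P ^ 6) ^ k = P ^ (6 * k - 1) * P := by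
          rw [← zpow_natCast P 6, ← zpow_mul, ← zpow_add_one]
          congr 1
          push_cast
          ring
        rw [h3, hPz, one_mul]
      rw [h2]
      exact f.range.zpow_mem h1 k
    have hAr : A ∈ f.range := by
      have h1 : A * P ∈ f.range := ⟨ga, hga⟩
      exact (f.range.mul_mem_cancel_right hPr).1 h1
    have hBr : B ∈ f.range := by
      have h1 : B * P ∈ f.range := ⟨gb, hgb⟩
      exact (f.range.mul_mem_cancel_right hPr).1 h1
    have htr : t ∈ f.range := ⟨gt, hgt⟩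
    have hWr : W ∈ f.range := by
      rw [← ABA]
      exact f.range.mul_mem (f.range.mul_mem hAr hBr) hAr
    have hEall : ∀ y : K, c (EE y) ∈ f.range := by
      obtain ⟨Z, hZ⟩ : ∃ Z : AddSubgroup K, ∀ y, y ∈ Z ↔ c (EE y) ∈ f.range :=
        ⟨{ carrier := {y | c (EE y) ∈ f.range}
           zero_mem' := by
            show c (EE 0) ∈ f.range
            rw [EE_zero, map_one]
            exact f.range.one_mem
           add_mem' := by
            intro b d hb hd
            show c (EE (b + d)) ∈ f.range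
            rw [EE_add, map_mul]
            exact f.range.mul_mem hb hd
           neg_mem' := by
            intro b hb
            show c (EE (-b)) ∈ f.range
            rw [EE_neg, map_inv]
            exact f.range.inv_mem hb }, fun y => Iff.rfl⟩
      intro y
      refine (hZ y).1 (hgn Z ((hZ 1).2 ?_) ?_ y)
      · rw [← hA]
        exact hAr
      · intro y hy
        refine (hZ _).2 ?_
        have h1 := (hZ y).1 hy
        have h2 : c (EE ((x : K) * y)) = t⁻¹ * c (EE y) * t⁻¹⁻¹ := by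
          rw [hc, ht, aut_conj, tau_inv_E]
        rw [h2]
        exact f.range.mul_mem (f.range.mul_mem (f.range.inv_mem htr) h1)
          (f.range.inv_mem (f.range.inv_mem htr))
    have hPtop : f.range.comap c = ⊤ := gen _ hEall (by
      show c (WW K) ∈ f.range
      rw [← hW]
      exact hWr)
    have hcr : ∀ g, c g ∈ f.range := by
      intro g
      have : g ∈ f.range.comap c := by rw [hPtop]; trivial
      exact this
    refine ⟨c.range.comap f, ⟨?_⟩, ?_⟩
    · rintro n ⟨g, hg⟩ y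
      show f (y * n * y⁻¹) ∈ c.range
      refine ⟨f y g, ?_⟩
      rw [map_mul, map_mul, map_inv, ← hg, hc, aut_conj]
    · have hker : c.ker ≤ (Subgroup.center (SpecialLinearGroup (Fin 2) K)).comap
          (MonoidHom.id _) := by
        intro g hg
        show g ∈ Subgroup.center _
        rw [Subgroup.mem_center_iff]
        intro h
        have h1 : c g h = h := by
          rw [MonoidHom.mem_ker] at hg
          rw [hg]
          rfl
        rw [hc, MulAut.conj_apply, mul_inv_eq_iff_eq_mul] at h1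
        exact h1.symm
      obtain ⟨e, he⟩ : ∃ e : (SpecialLinearGroup (Fin 2) K) ⧸ c.ker ≃* c.range,
          ∀ g, e (QuotientGroup.mk g) = ⟨c g, ⟨g, rfl⟩⟩ :=
        ⟨QuotientGroup.quotientKerEquivRange c, fun g => rfl⟩
      refine ⟨(QuotientGroup.map c.ker (Subgroup.center (SpecialLinearGroup (Fin 2) K))
        (MonoidHom.id _) hker).comp (e.symm.toMonoidHom.comp (f.subgroupComap c.range)), ?_⟩
      intro z
      obtain ⟨g, rfl⟩ := QuotientGroup.mk'_surjective _ z
      obtain ⟨y, hy⟩ := hcr g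
      have hyN : f y ∈ c.range := by rw [hy]; exact ⟨g, rfl⟩
      refine ⟨⟨y, hyN⟩, ?_⟩
      have h3 : (f.subgroupComap c.range) ⟨y, hyN⟩ = e (QuotientGroup.mk g) := by
        rw [he]
        exact Subtype.ext hy
      show QuotientGroup.map c.ker _ (MonoidHom.id _) hker
        (e.symm ((f.subgroupComap c.range) ⟨y, hyN⟩)) = _
      rw [h3, MulEquiv.symm_apply_apply]
      rfl

theorem hTGQ (hTA : StTA) : StTGQ := by
  intro p hp n k h5 hk
  obtain ⟨x, hx2, hgn⟩ := hTA p n h5
  have hm : p ^ (n + 1) ≠ 0 := pow_ne_zero _ hp.out.ne_zero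
  have hcard : Nat.card (GaloisField p (p ^ (n + 1))) = p ^ (p ^ (n + 1)) := GaloisField.card p _ hm
  have : Fintype (GaloisField p (p ^ (n + 1))) := Fintype.ofFinite _
  have hpow : ∀ y : GaloisField p (p ^ (n + 1)), y ^ (p ^ (p ^ (n + 1))) = y := by
    intro y
    rw [← hcard, Nat.card_eq_fintype_card, FiniteField.pow_card]
  obtain ⟨s, hs⟩ : ∃ s : GaloisField p (p ^ (n + 1)) ≃+* GaloisField p (p ^ (n + 1)),
      ∀ y, s y = y ^ (p ^ (p ^ n)) :=
    ⟨iterateFrobeniusEquiv _ p (p ^ n), fun y => iterateFrobeniusEquiv_def _ _ _ y⟩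
  have hit : ∀ (j : ℕ) (y : GaloisField p (p ^ (n + 1))), s^[j] y = y ^ ((p ^ (p ^ n)) ^ j) := by
    intro j
    induction j with
    | zero => intro y; simp
    | succ j ih =>
      intro y
      rw [Function.iterate_succ_apply', ih, hs, ← pow_mul, pow_succ (p ^ (p ^ n)) j]
  have h2 : (2 : GaloisField p (p ^ (n + 1))) ≠ 0 := by
    intro h
    have h3 : ((2 : ℕ) : GaloisField p (p ^ (n + 1))) = 0 := by exact_mod_cast h
    rw [CharP.cast_eq_zero_iff (GaloisField p (p ^ (n + 1))) p] at h3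
    exact absurd (Nat.le_of_dvd (by norm_num) h3) (by omega)
  refine core p (p ^ (p ^ n)) k hk x s ?_ (hs _) ?_ hgn
  · intro y
    rw [hit, ← pow_mul, ← pow_succ p n, hpow]
  · have h3 : s ((x : GaloisField p (p ^ (n + 1))) ^ (p ^ (p ^ n))) =
        (x : GaloisField p (p ^ (n + 1))) ^ ((p ^ (p ^ n)) ^ 2) := by
      rw [hs, ← pow_mul, sq (p ^ (p ^ n))]
    have h4 := congrArg s hx2
    rw [map_mul, map_add, map_mul, map_ofNat, map_one, h3, hs, hx2] at h4
    have h5 : 2 * ((x : GaloisField p (p ^ (n + 1))) ^ ((p ^ (p ^ n)) ^ 2)) =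
        2 * ((x : GaloisField p (p ^ (n + 1))) + 1) := by
      rw [h4]; ring
    exact mul_left_cancel₀ h2 h5

end Pool.Agent.Helper24.AY
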